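import Pool.Agent.Helper84.BT.Goals

/-!
# Packet BT ZES: the zero estimate
-/

set_option autoImplicit false

open Finset Polynomial

namespace Pool.Agent.Helper64.BT.ZES

open Pool.Agent.Helper84.BT

theorem sc_coeff (p : ℤ) (m : ℕ) (P : ℤ[X]) (n : ℕ) :
    (sc p m P).coeff n = if n ≤ m then P.coeff n * (4 * p) ^ (m - n) else 0 := by
  unfold sc
  rw [finset_sum_coeff]
  simp only [coeff_C_mul_X_pow]
  by_cases h : n ≤ m
  · rw [if_pos h, Finset.sum_eq_single n]
    · simp
    · intro b _ hb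
      rw [if_neg (fun h => hb h.symm)]
    · intro h2
      exact absurd (Finset.mem_range.2 (by omega)) h2
  · rw [if_neg h]
    refine Finset.sum_eq_zero fun b hb => ?_
    have := Finset.mem_range.1 hb
    rw [if_neg (by omega)]

theorem sc_natDegree (p : ℤ) (m k : ℕ) (P : ℤ[X]) (h : P.natDegree ≤ k) :
    (sc p m P).natDegree ≤ k := by
  rw [natDegree_le_iff_coeff_eq_zero]
  intro n hn
  rw [sc_coeff, coeff_eq_zero_of_natDegree_lt (by omega)]
  simp

theorem sc_comp (p : ℤ) (m : ℕ) (P : ℤ[X]) (h : P.natDegree ≤ m) :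
    (sc p m P).comp (C (4 * p) * X) = C ((4 * p) ^ m) * P := by
  ext n
  rw [comp_C_mul_X_coeff, sc_coeff, coeff_C_mul]
  by_cases hn : n ≤ m
  · rw [if_pos hn, mul_assoc, ← pow_add, Nat.sub_add_cancel hn, mul_comm]
  · rw [if_neg hn, coeff_eq_zero_of_natDegree_lt (by omega)]
    simp

theorem deg_W (P Q : ℤ[X]) (m1 m2 : ℕ) (hP : P.natDegree ≤ m1) (hQ : Q.natDegree ≤ m2) :
    (P.derivative * Q - P * Q.derivative).natDegree ≤ m1 + m2 - 1 := by
  refine (natDegree_sub_le_of_le (m := m1 + m2 - 1) (n := m1 + m2 - 1) ?_ ?_).trans (by simp)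
  · by_cases h : P.natDegree = 0
    · rw [derivative_of_natDegree_zero h]
      simp
    · have h1 := natDegree_derivative_le P
      have h2 := natDegree_mul_le (p := P.derivative) (q := Q)
      omega
  · by_cases h : Q.natDegree = 0
    · rw [derivative_of_natDegree_zero h]
      simp
    · have h1 := natDegree_derivative_le Q
      have h2 := natDegree_mul_le (p := P) (q := Q.derivative)
      omega

theorem deg_Dl (p : ℤ) (P Q : ℤ[X]) (m1 m2 : ℕ) (hP : P.natDegree ≤ m1) (hQ : Q.natDegree ≤ m2) :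
    (Dl p P Q).natDegree ≤ m1 + m2 + 1 := by
  have h1 := natDegree_mul_le (p := C (p - 1) * P) (q := Q)
  have h2 := natDegree_C_mul_le (p - 1) P
  unfold Dl
  refine (natDegree_sub_le_of_le (m := m1 + m2 + 1) (n := m1 + m2 + 1) (by omega) ?_).trans
    (by simp)
  by_cases h0 : m1 + m2 = 0
  · have h3 : P.derivative = 0 := derivative_of_natDegree_zero (by omega)
    have h4 : Q.derivative = 0 := derivative_of_natDegree_zero (by omega)
    rw [h3, h4]
    simp
  · have h3 := deg_W P Q m1 m2 hP hQ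
    have h4 : (2 * (1 - X) * (C p - X) : ℤ[X]).natDegree ≤ 2 := by
      compute_degree
    have h5 := natDegree_mul_le (p := (2 * (1 - X) * (C p - X) : ℤ[X]))
      (q := P.derivative * Q - P * Q.derivative)
    omega

/-- divisibility by powers of `X` may be checked after the substitution `c X` -/
theorem dvd_scale (c : ℤ) (hc : c ≠ 0) (P : ℤ[X]) (n : ℕ) (h : X ^ n ∣ P.comp (C c * X)) :
    X ^ n ∣ P := by
  rw [X_pow_dvd_iff] at h ⊢
  intro d hd
  have := h d hd
  rw [comp_C_mul_X_coeff] at this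
  exact (mul_eq_zero.1 this).resolve_right (pow_ne_zero _ hc)

theorem dvd_C (c : ℤ) (hc : c ≠ 0) (P : ℤ[X]) (n : ℕ) (h : X ^ n ∣ C c * P) :
    X ^ n ∣ P := by
  rw [X_pow_dvd_iff] at h ⊢
  intro d hd
  have := h d hd
  rw [coeff_C_mul] at this
  exact (mul_eq_zero.1 this).resolve_left hc

theorem dvd_coe (P : ℤ[X]) (n : ℕ) :
    (PowerSeries.X : PowerSeries ℤ) ^ n ∣ (P : PowerSeries ℤ) ↔ X ^ n ∣ P := by
  rw [PowerSeries.X_pow_dvd_iff, X_pow_dvd_iff]
  simp only [Polynomial.coeff_coe]

theorem la_coe (a : ℤ) : la a = ((1 + C (4 * a) * X : ℤ[X]) : PowerSeries ℤ) := by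
  unfold la
  rw [Polynomial.coe_add, Polynomial.coe_mul, Polynomial.coe_one, Polynomial.coe_C,
    Polynomial.coe_X]

theorem t : S_ZES := by
  intro hS hWR hDNZ p q w T m1 m2 P Q hp hpq hQ0 hPd hQd h21 h2T hTle hdvd
  by_contra hcon
  push Not at hcon
  have hT1 : 1 ≤ T := by omega
  obtain ⟨hg0, -, hg1, -⟩ := hS (-1) (-p)
  obtain ⟨-, -, hθ1, -⟩ := hS (q - 1) (q - p)
  -- `P ≠ 0`
  have hP0 : P ≠ 0 := by
    rintro rfl
    apply hQ0
    rw [Polynomial.coe_zero, zero_sub, dvd_neg] at hdvd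
    have hu : IsUnit (Sr (-1) (-p)) := by
      rw [PowerSeries.isUnit_iff_constantCoeff, hg0]
      exact isUnit_one
    have h1 : (PowerSeries.X : PowerSeries ℤ) ^ T ∣ (Q : PowerSeries ℤ) :=
      (hu.dvd_mul_left).1 hdvd
    rw [dvd_coe, X_pow_dvd_iff] at h1
    ext n
    by_cases hn : n < T
    · rw [h1 n hn, coeff_zero]
    · rw [coeff_eq_zero_of_natDegree_lt (by omega), coeff_zero]
  obtain ⟨r, hr⟩ : ∃ r, r = 4 * p := ⟨_, rfl⟩
  have hr0 : r ≠ 0 := by rw [hr]; omega
  have hPs := sc_comp p m1 P hPd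
  have hQs := sc_comp p m1 Q (hQd.trans h21)
  have hPsd := sc_natDegree p m1 m1 P hPd
  have hQsd := sc_natDegree p m1 m2 Q hQd
  obtain ⟨Ps, hPse⟩ : ∃ Ps, Ps = sc p m1 P := ⟨_, rfl⟩
  obtain ⟨Qs, hQse⟩ : ∃ Qs, Qs = sc p m1 Q := ⟨_, rfl⟩
  rw [← hPse] at hPs hPsd
  rw [← hQse] at hQs hQsd
  rw [← hr] at hPs hQs
  have hPs0 : Ps ≠ 0 := by
    rintro rfl
    rw [zero_comp] at hPs
    have := mul_eq_zero.1 hPs.symm
    rcases this with h | h
    · rw [C_eq_zero] at h
      exact pow_ne_zero _ hr0 h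
    · exact hP0 h
  have hQs0 : Qs ≠ 0 := by
    rintro rfl
    rw [zero_comp] at hQs
    have := mul_eq_zero.1 hQs.symm
    rcases this with h | h
    · rw [C_eq_zero] at h
      exact pow_ne_zero _ hr0 h
    · exact hQ0 h
  have hΔ0 := hDNZ p Ps Qs hp hPs0 hQs0
  have hΔd := deg_Dl p Ps Qs m1 m2 hPsd hQsd
  -- (a)
  have ha : X ^ (T - 1) ∣ Dl p Ps Qs := by
    have h1 := hWR (Sr (-1) (-p)) P Q (la (-1) * la (-p)) (2 * (-1 - -p)) T hg1 hdvd
    rw [PowerSeries.derivative_coe, PowerSeries.derivative_coe, la_coe, la_coe] at h1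
    have h2 : X ^ (T - 1) ∣ C (2 * (-1 - -p)) * P * Q - (1 + C (4 * -1) * X) *
        (1 + C (4 * -p) * X) * (derivative P * Q - P * derivative Q) := by
      rw [← dvd_coe]
      convert h1 using 2
      simp only [Polynomial.coe_sub, Polynomial.coe_mul, Polynomial.coe_C]
    have hd1 : C r * (derivative Ps).comp (C r * X) = C (r ^ m1) * derivative P := by
      have e : C (r ^ m1) * derivative P = derivative (C (r ^ m1) * P) :=
        (derivative_C_mul _ _).symm
      rw [e, ← hPs, derivative_comp, derivative_C_mul, derivative_X, mul_one]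
    have hd2 : C r * (derivative Qs).comp (C r * X) = C (r ^ m1) * derivative Q := by
      have e : C (r ^ m1) * derivative Q = derivative (C (r ^ m1) * Q) :=
        (derivative_C_mul _ _).symm
      rw [e, ← hQs, derivative_comp, derivative_C_mul, derivative_X, mul_one]
    apply dvd_scale r hr0
    apply dvd_C r hr0
    have h3 : C r * (Dl p Ps Qs).comp (C r * X) = C (r ^ m1 * r ^ m1 * (2 * p)) *
        (C (2 * (-1 - -p)) * P * Q - (1 + C (4 * -1) * X) *
        (1 + C (4 * -p) * X) * (derivative P * Q - P * derivative Q)) := by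
      unfold Dl
      have e1 : (C (p - 1) * Ps * Qs - 2 * (1 - X) * (C p - X) * (derivative Ps * Qs -
          Ps * derivative Qs)).comp (C r * X) = C (p - 1) * Ps.comp (C r * X) * Qs.comp (C r * X) -
          2 * (1 - C r * X) * (C p - C r * X) * ((derivative Ps).comp (C r * X) *
            Qs.comp (C r * X) - Ps.comp (C r * X) * (derivative Qs).comp (C r * X)) := by
        simp only [sub_comp, mul_comp, C_comp, X_comp, one_comp]
        simp
      rw [e1]
      have e2 : C r * (C (p - 1) * Ps.comp (C r * X) * Qs.comp (C r * X) -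
          2 * (1 - C r * X) * (C p - C r * X) * ((derivative Ps).comp (C r * X) *
            Qs.comp (C r * X) - Ps.comp (C r * X) * (derivative Qs).comp (C r * X))) =
          C r * (C (p - 1) * Ps.comp (C r * X) * Qs.comp (C r * X)) -
          2 * (1 - C r * X) * (C p - C r * X) * ((C r * (derivative Ps).comp (C r * X)) *
            Qs.comp (C r * X) - Ps.comp (C r * X) * (C r * (derivative Qs).comp (C r * X))) := by
        ring
      rw [e2, hd1, hd2, hPs, hQs]
      generalize r ^ m1 = s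
      rw [hr]
      simp only [C_mul, C_sub, C_neg, C_1]
      simp only [map_ofNat]
      ring
    rw [h3]
    exact h2.mul_left _
  -- (b)
  obtain ⟨J, hJ⟩ : ∃ J, J = m1 + m2 + 4 - T := ⟨_, rfl⟩
  have hc0 : 4 * (q - p) * (q - 1) ≠ 0 := by
    refine mul_ne_zero (mul_ne_zero (by norm_num) (by omega)) (by omega)
  have hb : (X - C q) ^ (J - 1) ∣ Dl p Ps Qs := by
    rw [X_sub_C_pow_dvd_iff]
    apply dvd_scale (4 * (q - p) * (q - 1)) hc0
    have h0 : ((Dl p Ps Qs).comp (X + C q)).comp (C (4 * (q - p) * (q - 1)) * X) =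
        (Dl p Ps Qs).comp (ph p q) := by
      rw [comp_assoc]
      congr 1
      unfold ph
      simp only [add_comp, X_comp, C_comp]
      ring
    rw [h0]
    apply dvd_C 2 (by norm_num)
    have hE : (PowerSeries.X : PowerSeries ℤ) ^ J ∣ ((Ps.comp (ph p q) : ℤ[X]) : PowerSeries ℤ) -
        PowerSeries.C w * Sr (q - 1) (q - p) * ((Qs.comp (ph p q) : ℤ[X]) : PowerSeries ℤ) := by
      rw [PowerSeries.X_pow_dvd_iff]
      intro j hj
      have := hcon j (by omega)
      unfold Eh at this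
      rw [← hPse, ← hQse] at this
      exact this
    have h1 := hWR (PowerSeries.C w * Sr (q - 1) (q - p)) _ _ (la (q - 1) * la (q - p))
      (2 * (q - 1 - (q - p))) J (by
        have e : PowerSeries.derivative ℤ (PowerSeries.C w * Sr (q - 1) (q - p)) =
            PowerSeries.C w * PowerSeries.derivative ℤ (Sr (q - 1) (q - p)) := by
          rw [← PowerSeries.smul_eq_C_mul, ← PowerSeries.smul_eq_C_mul]
          exact (PowerSeries.derivative ℤ).map_smul w _
        rw [e, mul_left_comm, hθ1]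
        ring) hE
    rw [PowerSeries.derivative_coe, PowerSeries.derivative_coe, la_coe, la_coe] at h1
    have h2 : X ^ (J - 1) ∣ C (2 * (q - 1 - (q - p))) * Ps.comp (ph p q) * Qs.comp (ph p q) -
        (1 + C (4 * (q - 1)) * X) * (1 + C (4 * (q - p)) * X) *
        (derivative (Ps.comp (ph p q)) * Qs.comp (ph p q) -
          Ps.comp (ph p q) * derivative (Qs.comp (ph p q))) := by
      rw [← dvd_coe]
      convert h1 using 2
      simp only [Polynomial.coe_sub, Polynomial.coe_mul, Polynomial.coe_C]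
    have hd : ∀ R : ℤ[X], derivative (R.comp (ph p q)) =
        C (4 * (q - p) * (q - 1)) * (derivative R).comp (ph p q) := by
      intro R
      rw [derivative_comp]
      congr 1
      unfold ph
      simp
    rw [hd, hd] at h2
    have h3 : C 2 * (Dl p Ps Qs).comp (ph p q) = C (2 * (q - 1 - (q - p))) * Ps.comp (ph p q) *
        Qs.comp (ph p q) -
        (1 + C (4 * (q - 1)) * X) * (1 + C (4 * (q - p)) * X) *
        (C (4 * (q - p) * (q - 1)) * (derivative Ps).comp (ph p q) * Qs.comp (ph p q) -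
          Ps.comp (ph p q) * (C (4 * (q - p) * (q - 1)) * (derivative Qs).comp (ph p q))) := by
      unfold Dl
      have e1 : (C (p - 1) * Ps * Qs - 2 * (1 - X) * (C p - X) * (derivative Ps * Qs -
          Ps * derivative Qs)).comp (ph p q) = C (p - 1) * Ps.comp (ph p q) * Qs.comp (ph p q) -
          2 * (1 - ph p q) * (C p - ph p q) * ((derivative Ps).comp (ph p q) *
            Qs.comp (ph p q) - Ps.comp (ph p q) * (derivative Qs).comp (ph p q)) := by
        simp only [sub_comp, mul_comp, C_comp, X_comp, one_comp]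
        simp
      rw [e1]
      have e2 : (1 - ph p q) * (C p - ph p q) = C ((q - 1) * (q - p)) *
          ((1 + C (4 * (q - 1)) * X) * (1 + C (4 * (q - p)) * X)) := by
        unfold ph
        simp only [C_mul, C_sub, C_1]
        simp only [map_ofNat]
        ring
      have e3 : (2 * (1 - ph p q) * (C p - ph p q) : ℤ[X]) = 2 * (C ((q - 1) * (q - p)) *
          ((1 + C (4 * (q - 1)) * X) * (1 + C (4 * (q - p)) * X))) := by
        rw [← e2]
        ring
      rw [e3]
      simp only [C_mul, C_sub, C_1]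
      simp only [map_ofNat]
      ring
    rw [h3]
    exact h2
  -- (c)
  obtain ⟨Δ1, hΔ1⟩ := ha
  rw [hΔ1] at hb
  have hnd : ¬ (X - C q) ∣ (X : ℤ[X]) ^ (T - 1) := by
    rw [dvd_iff_isRoot]
    intro h
    rw [IsRoot, eval_pow, eval_X] at h
    exact pow_ne_zero _ (by omega : q ≠ 0) h
  obtain ⟨Δ2, hΔ2⟩ := (prime_X_sub_C q).pow_dvd_of_dvd_mul_left _ hnd hb
  have h5 : Dl p Ps Qs = (X ^ (T - 1) * (X - C q) ^ (J - 1)) * Δ2 := by
    rw [hΔ1, hΔ2]
    ring
  have hΔ20 : Δ2 ≠ 0 := by
    rintro rfl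
    rw [mul_zero] at h5
    exact hΔ0 h5
  have h6 : ((X : ℤ[X]) ^ (T - 1) * (X - C q) ^ (J - 1)).natDegree = T - 1 + (J - 1) := by
    rw [natDegree_mul (pow_ne_zero _ X_ne_zero) (pow_ne_zero _ (X_sub_C_ne_zero q)),
      natDegree_X_pow, natDegree_pow, natDegree_X_sub_C, mul_one]
  have h7 : (Dl p Ps Qs).natDegree = T - 1 + (J - 1) + Δ2.natDegree := by
    rw [h5, natDegree_mul _ hΔ20, h6]
    exact mul_ne_zero (pow_ne_zero _ X_ne_zero) (pow_ne_zero _ (X_sub_C_ne_zero q))
  omega

end Pool.Agent.Helper64.BT.ZES
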